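import Pool.Agent.RS.StmtsT

set_option autoImplicit false

/-!
# GTW: the tower of germs
-/

namespace Pool.Agent.RS.H16

open MvPolynomial

variable {E : Type} [Field E]

theorem gm_eq {F G : ℕ → MvPolynomial ℕ E} : gm E F = gm E G ↔ ∀ᶠ n in (uf : Filter ℕ), F n = G n :=
  Filter.Germ.coe_eq

theorem dBG_val (J : ℕ → ℕ) (f : BG E) : ((dBG E J f : BG E) : AS E) = dAS E J f := rfl

theorem dBG_gm (J : ℕ → ℕ) (f : BG E) (F : ℕ → MvPolynomial ℕ E) (h : (f : AS E) = gm E F) :
    ((dBG E J f : BG E) : AS E) = gm E (fun n => pderiv (J n) (F n)) := by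
  rw [dBG_val, h, dAS_gm]

/-- derivatives of the variables -/
theorem dx (j : ℕ → ℕ → ℕ) (x : ℕ → BG E) (r : ℕ)
    (hx : ∀ l, (x l : AS E) = gm E (fun n => X (j n l)))
    (hj : ∀ᶠ n in (uf : Filter ℕ), ∀ l < r, ∀ m < l, j n l ≠ j n m) (l : ℕ) (hl : l < r) (m : ℕ)
    (hm : m < r) : dBG E (fun n => j n l) (x m) = if l = m then 1 else 0 := by
  apply Subtype.ext
  rw [dBG_gm _ _ _ (hx m)]
  by_cases h : l = m
  · subst h
    rw [if_pos rfl]
    change gm E _ = gm E (fun _ => 1)
    rw [gm_eq]
    exact Filter.Eventually.of_forall fun n => pderiv_X_self _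
  · rw [if_neg h]
    change gm E _ = gm E (fun _ => 0)
    rw [gm_eq]
    filter_upwards [hj] with n hn
    apply pderiv_X_of_ne
    rcases Nat.lt_or_gt_of_ne h with h' | h'
    · exact hn m hm l h'
    · exact fun e => hn l hl m h' e.symm

theorem tf [CharZero E] (a : BG E) (k : ℕ) (h : a * ((k : BG E) + 1) = 0) : a = 0 := by
  obtain ⟨a, F, D, hF, rfl⟩ := a
  apply Subtype.ext
  have h1 := congrArg (fun z : BG E => (z : AS E)) h
  have e2 : ((((⟨gm E F, F, D, hF, rfl⟩ : BG E) * ((k : BG E) + 1) : BG E)) : AS E) =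
      gm E (fun n => F n * ((k : MvPolynomial ℕ E) + 1)) := by
    have e3 : (((k : BG E) : BG E) : AS E) = gm E (fun _ => (k : MvPolynomial ℕ E)) := by
      have : (((k : BG E) : BG E) : AS E) = ((k : ℕ) : AS E) := map_natCast (BG E).val k
      rw [this]
      rfl
    rw [Subalgebra.coe_mul, Subalgebra.coe_add, e3, Subalgebra.coe_one]
    rfl
  have h2 : gm E (fun n => F n * ((k : MvPolynomial ℕ E) + 1)) = gm E (fun _ => 0) := by
    rw [← e2]; exact h1
  rw [gm_eq] at h2
  change gm E F = gm E (fun _ => 0)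
  rw [gm_eq]
  filter_upwards [h2] with n hn
  exact (mul_eq_zero.1 hn).resolve_right (Nat.cast_add_one_ne_zero k)

theorem d_eval (d : Derivation (KS E) (BG E) (BG E)) (x : BG E) (hx : d x = 1) (p : Polynomial (BG E))
    (hp : ∀ n, d (p.coeff n) = 0) : d (p.eval x) = p.derivative.eval x := by
  rw [Polynomial.eval_eq_sum, Polynomial.sum, map_sum, Polynomial.derivative_eval, Polynomial.sum]
  refine Finset.sum_congr rfl fun e _ => ?_
  rw [Derivation.leibniz, hp e, smul_zero, add_zero, Derivation.leibniz_pow, hx, smul_eq_mul,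
    smul_eq_mul, mul_one, nsmul_eq_mul]
  ring

theorem uniq [CharZero E] (P : Subring (BG E)) (d : Derivation (KS E) (BG E) (BG E)) (x : BG E)
    (hx : d x = 1) (hP : ∀ f ∈ P, d f = 0) : ∀ (m : ℕ) (p : Polynomial (BG E)), p.natDegree ≤ m →
    (∀ n, p.coeff n ∈ P) → p.eval x = 0 → p = 0 := by
  intro m
  induction m with
  | zero =>
    intro p hm _ h0
    have e : p = Polynomial.C (p.coeff 0) := Polynomial.eq_C_of_natDegree_le_zero hm
    rw [e, Polynomial.eval_C] at h0
    rw [e, h0, Polynomial.C_0]
  | succ m ih =>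
    intro p hm hc h0
    have h1 : p.derivative.eval x = 0 := by
      rw [← d_eval d x hx p fun n => hP _ (hc n), h0, map_zero]
    have h2 : p.derivative = 0 := by
      refine ih _ ?_ (fun n => ?_) h1
      · exact (Polynomial.natDegree_derivative_le p).trans (by omega)
      · rw [Polynomial.coeff_derivative]
        refine P.mul_mem (hc _) (P.add_mem ?_ P.one_mem)
        exact natCast_mem P n
    have h3 : ∀ n, p.coeff (n + 1) = 0 := by
      intro n
      have h := congrArg (fun q : Polynomial (BG E) => q.coeff n) h2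
      simp only [Polynomial.coeff_derivative, Polynomial.coeff_zero] at h
      exact tf _ _ h
    refine ih p ?_ hc h0
    rw [Polynomial.natDegree_le_iff_coeff_eq_zero]
    intro N hN
    obtain ⟨n, rfl⟩ : ∃ n, N = n + 1 := ⟨N - 1, by omega⟩
    exact h3 n

theorem gtw (hG : GmmStmt) (hT : TxcStmt) : GtwStmt := by
  intro E _ _ j x r hx hj
  have h3 := dx j x r hx hj
  refine ⟨⟨fun b i hi => absurd hi (Nat.not_lt_zero i), fun l hl => ⟨?_, ?_, ?_, ?_⟩⟩, ?_,
    fun l hl m hm => h3 l hl m hm⟩
  · intro f hf i hi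
    exact hf i (by omega)
  · intro i hi
    have := h3 i (by omega) l hl
    rw [if_neg (by omega)] at this
    exact this
  · intro f hf
    obtain ⟨f, F, D, hF, rfl⟩ := f
    have hf' := (hG E j F ⟨gm E F, F, D, hF, rfl⟩ rfl l).1 hf
    have hdeg : ∀ i n, ((toX (j n l) (F n)).coeff i).totalDegree ≤ D := fun i n =>
      ((hT E (j n l) (F n)).1 i).trans (hF n)
    let c : ℕ → BG E := fun i => bg E (fun n => (toX (j n l) (F n)).coeff i) D (hdeg i)
    have hc : ∀ i, c i ∈ PG E (fun i n => j n i) (l + 1) := by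
      intro i
      rw [hG E j (fun n => (toX (j n l) (F n)).coeff i) (c i) rfl (l + 1)]
      filter_upwards [hf'] with n hn
      have hv := (hT E (j n l) (F n)).2.1 i
      have hn' : F n ∈ supported E {i | i ∉ (Finset.range l).image (j n)} := hn
      rw [mem_supported] at hn'
      change (toX (j n l) (F n)).coeff i ∈ supported E {i | i ∉ (Finset.range (l + 1)).image (j n)}
      rw [mem_supported]
      intro v hv'
      have hv2 := hv hv'
      rw [Finset.mem_erase] at hv2
      have hv3 := hn' (Finset.mem_coe.2 hv2.2)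
      simp only [Set.mem_ofPred_eq, Finset.mem_image, Finset.mem_range, not_exists, not_and] at hv3 ⊢
      intro k hk e
      rcases Nat.lt_succ_iff_lt_or_eq.1 hk with h | h
      · exact hv3 k h e
      · exact hv2.1 (by rw [← e, h])
    refine ⟨∑ i ∈ Finset.range (D + 1), Polynomial.C (c i) * Polynomial.X ^ i, fun n => ?_, ?_⟩
    · rw [Polynomial.finsetSum_coeff]
      refine Subring.sum_mem _ fun i _ => ?_
      rw [Polynomial.coeff_C_mul_X_pow]
      split_ifs
      · exact hc i
      · exact Subring.zero_mem _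
    · rw [Polynomial.eval_finsetSum]
      apply Subtype.ext
      have e1 : ∀ s : Finset ℕ, ((∑ i ∈ s, (Polynomial.C (c i) * Polynomial.X ^ i).eval (x l) : BG E) : AS E) =
          gm E (fun n => ∑ i ∈ s, (toX (j n l) (F n)).coeff i * X (j n l) ^ i) := by
        intro s
        induction s using Finset.induction_on with
        | empty => simp only [Finset.sum_empty]; rfl
        | insert a s ha ih =>
          rw [Finset.sum_insert ha, Subalgebra.coe_add, ih]
          have e2 : (((Polynomial.C (c a) * Polynomial.X ^ a).eval (x l) : BG E) : AS E) =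
              gm E (fun n => (toX (j n l) (F n)).coeff a * X (j n l) ^ a) := by
            rw [Polynomial.eval_mul, Polynomial.eval_C, Polynomial.eval_pow, Polynomial.eval_X,
              Subalgebra.coe_mul, Subalgebra.coe_pow, hx l]
            rfl
          rw [e2]
          simp only [Finset.sum_insert ha]
          rfl
      rw [e1]
      change _ = gm E F
      rw [gm_eq]
      refine Filter.Eventually.of_forall fun n => ?_
      have h := eval_toX (j n l) (F n)
      rw [Polynomial.eval_eq_sum_range' (n := D + 1)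
        (Nat.lt_succ_of_le (((hT E (j n l) (F n)).2.2.1).trans (hF n)))] at h
      exact h
  · intro p hp h0
    have hd := h3 l hl l hl
    rw [if_pos rfl] at hd
    refine uniq (PG E (fun i n => j n i) (l + 1)) (dBG E (fun n => j n l)) (x l) hd (fun f hf => hf l (by omega))
      p.natDegree p le_rfl hp h0
  · intro l hl f hf
    exact hf l hl

end Pool.Agent.RS.H16
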