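import Pool.Agent.RS.StmtsF

set_option autoImplicit false

/-!
# SDG: degrees of the entries of the Sylvester identity
-/

namespace Pool.Agent.RS.H16

open MvPolynomial

variable {E : Type} [Field E]

theorem det_deg {n : Type} [Fintype n] [DecidableEq n] (A : Matrix n n (MvPolynomial ℕ E)) (D : ℕ)
    (h : ∀ i j, (A i j).totalDegree ≤ D) : A.det.totalDegree ≤ Fintype.card n * D := by
  rw [Matrix.det_apply]
  refine totalDegree_finsetSum_le fun s _ => ?_
  have h1 : (∏ i, A (s i) i).totalDegree ≤ Fintype.card n * D := by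
    refine (totalDegree_finsetProd _ _).trans ?_
    refine (Finset.sum_le_card_nsmul _ _ D fun i _ => h _ _).trans ?_
    rw [Finset.card_univ, smul_eq_mul]
  rcases Int.units_eq_one_or (Equiv.Perm.sign s) with e | e
  · rw [e, one_smul]; exact h1
  · rw [e, Units.neg_smul, one_smul, totalDegree_neg]; exact h1

theorem syl_deg (m g D : ℕ) (b G : Polynomial (MvPolynomial ℕ E))
    (hb : ∀ i, (b.coeff i).totalDegree ≤ D) (hG : ∀ i, (G.coeff i).totalDegree ≤ D)
    (i j : Fin (m + g)) : (Polynomial.sylvester b G m g i j).totalDegree ≤ D := by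
  unfold Polynomial.sylvester
  rw [Matrix.of_apply]
  refine Fin.addCases (fun j₁ => ?_) (fun j₁ => ?_) j
  · rw [Fin.addCases_left]
    split_ifs
    · exact hG _
    · simp
  · rw [Fin.addCases_right]
    split_ifs
    · exact hb _
    · simp

theorem adj_deg (m g D : ℕ) (b G : Polynomial (MvPolynomial ℕ E))
    (hb : ∀ i, (b.coeff i).totalDegree ≤ D) (hG : ∀ i, (G.coeff i).totalDegree ≤ D)
    (i j : Fin (m + g)) :
    ((Polynomial.sylvester b G m g).adjugate i j).totalDegree ≤ (m + g) * D := by
  rw [Matrix.adjugate_apply]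
  have h := det_deg ((Polynomial.sylvester b G m g).updateRow j (Pi.single i 1)) D (fun a c => ?_)
  · rw [Fintype.card_fin] at h; exact h
  · by_cases hj : a = j
    · subst hj
      rw [Matrix.updateRow_self]
      by_cases hc : c = i
      · subst hc; rw [Pi.single_eq_same]; simp
      · rw [Pi.single_eq_of_ne hc]; simp
    · rw [Matrix.updateRow_ne hj]
      exact syl_deg m g D b G hb hG a c

theorem sdg : SdgStmt := by
  intro E _ m g D b G P hb hG hP
  refine ⟨fun i => ?_, fun i => ?_, ?_⟩
  · unfold sylA
    split_ifs with h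
    · refine totalDegree_finsetSum_le fun k _ => ?_
      exact (totalDegree_mul _ _).trans (Nat.add_le_add (adj_deg m g D b G hb hG _ _) (hP _))
    · simp
  · unfold sylB
    split_ifs with h
    · refine totalDegree_finsetSum_le fun k _ => ?_
      exact (totalDegree_mul _ _).trans (Nat.add_le_add (adj_deg m g D b G hb hG _ _) (hP _))
    · simp
  · have h := det_deg (Polynomial.sylvester b G m g) D (syl_deg m g D b G hb hG)
    rw [Fintype.card_fin] at h
    exact h

end Pool.Agent.RS.H16
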